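import Mathlib
import Pool.Agent.Run7.h17.JointBDH2

/-!
# Joint correlations in almost all residue classes of almost all moduli up to `N / log ^ c N`

A theorem of Barban-Davenport-Halberstam type for the products of values of the von Mangoldt function (at arbitrary
shifts) and of the Liouville function (at shifts from families of nearly minimal additive energy, for example random
integers, random elements of arbitrary sets of `N / log ^ C N` integers, or random values of a polynomial).

Used: the estimate of helper223 for all lengths and many weights (`Pool.Agent.Run7.h223.LE1`), which rests on the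
starting files `Pool.Agent.H373R2.T7` (Davenport's theorem for the Liouville function, energies), and the large sieve
(`Pool.Agent.Helper112.LS`). From Mathlib: `ArithmeticFunction.vonMangoldt` is von Mangoldt's function `Λ`,
`ArithmeticFunction.cardFactors` the number `Ω` of prime factors; `Finset.Icc 1 x` are the integers from `1` to `x`,
`Finset.range q` those from `0` to `q - 1`.
-/

set_option autoImplicit false

namespace Pool.Agent.Results.MP_e6fa8b_nt.LargeModuli

open Finset

/-- The additive energy of order `p` of the family `s 1, ..., s x`: the number of solutions of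
`s (v 1) + ... + s (v p) = s (w 1) + ... + s (w p)` with all `v i`, `w i` in `{1, ..., x}`. -/
def energy (p x : ℕ) (s : ℕ → ℕ) : ℕ :=
  (((Fintype.piFinset fun _ : Fin p => Icc 1 x) ×ˢ (Fintype.piFinset fun _ : Fin p => Icc 1 x)).filter
    (fun q => ∑ i, s (q.1 i) = ∑ i, s (q.2 i))).card

/-- The family `s 1, ..., s x` lies in `[0, B N]`, and its additive energy of some order `p ≤ h` is at most
`log ^ C N` times `x ^ (2 p) / N`. -/
def Spread (h B C N x : ℕ) (s : ℕ → ℕ) : Prop :=
  (∀ m ∈ Icc 1 x, s m ≤ B * N) ∧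
    ∃ p : ℕ, 1 ≤ p ∧ p ≤ h ∧ (energy p x s : ℝ) * N ≤ Real.log N ^ C * (x : ℝ) ^ (2 * p)

/-- The Liouville function, with complex values. -/
noncomputable def lam (n : ℕ) : ℂ := (-1) ^ ArithmeticFunction.cardFactors n

/-- The sum over the `n ≤ X` in the class `b` modulo `q` of `θ(n) ∏_{i ∈ K} Λ(n + a i) ∏_{j ∈ J} λ(α j n + s j)`. -/
noncomputable def classSum {k t : ℕ} (θ : ℕ → ℂ) (a : Fin k → ℕ) (K : Finset (Fin k)) (α s : Fin t → ℕ)
    (J : Finset (Fin t)) (q b X : ℕ) : ℂ :=
  ∑ n ∈ (Icc 1 X).filter (fun n => n % q = b),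
    θ n * (∏ i ∈ K, (ArithmeticFunction.vonMangoldt (n + a i) : ℂ)) * ∏ j ∈ J, lam (α j * n + s j)

/-- For every set `K` of indices of the shifts `a i` and every nonempty set `J` of indices of the forms `α j n + s j`,
for all `Q ≤ N / log ^ c N` and all lengths `Y q b` with `α j (Y q b) ≤ B N` (`j ∈ J`): the sum over the moduli
`q ≤ Q` and the classes `b` modulo `q` of the absolute values of the sums over the `n ≤ Y q b` in the class is at most
`Q N / log ^ U N`. -/
def AlmostAllClassesSmall (c B U N : ℕ) {k t : ℕ} (θ : ℕ → ℂ) (a : Fin k → ℕ) (α s : Fin t → ℕ) : Prop :=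
  ∀ K : Finset (Fin k), ∀ J : Finset (Fin t), J.Nonempty → ∀ Q : ℕ, Q * Real.log N ^ c ≤ N →
    ∀ Y : ℕ → ℕ → ℕ, (∀ q b, ∀ j ∈ J, α j * Y q b ≤ B * N) →
      ∑ q ∈ Icc 1 Q, ∑ b ∈ range q, ‖classSum θ a K α s J q b (Y q b)‖ ≤ Q * N / Real.log N ^ U

lemma energy_eq (h x : ℕ) (s : ℕ → ℕ) :
    Pool.Agent.H373R2.T7.energy h x (fun m => (s m : ℤ)) = energy h x s := by
  unfold energy Pool.Agent.H373R2.T7.energy
  congr 1
  apply filter_congr
  intro q _
  change (∑ i, ((s (q.1 i) : ℕ) : ℤ) = ∑ i, ((s (q.2 i) : ℕ) : ℤ)) ↔ _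
  constructor
  · intro h; exact_mod_cast h
  · intro h; exact_mod_cast h

lemma spread_energy (h B C N x : ℕ) (s : ℕ → ℕ) (hs : Spread h B C N x s) :
    (Pool.Agent.H373R2.T7.energy h x (fun m => (s m : ℤ)) : ℝ) * N ≤ Real.log N ^ C * (x : ℝ) ^ (2 * h) := by
  obtain ⟨_, p, _, hp, hE⟩ := hs
  rw [← energy_eq] at hE
  exact Run7.h223.LE.spread_mono C p h x N hp _ hE

open Classical in
/-- Let `k, h, B, C, κ, U` be fixed. There is `c` such that for all large `N` the following holds for all `t` with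
`2 ^ t ≤ log ^ κ N`, all families `s j 1, ..., s j (y j)`, `j < t`, of integers in `[0, B N]` whose additive energy of
some order `≤ h` is minimal up to the factor `log ^ C N`, all multipliers `α j ≥ 1`, all shifts `a i ≤ B N`, `i < k`, and
all families of at most `log ^ κ N` weights `θ l`, bounded by `log ^ κ N` on `[1, B N]`. For all vectors
`(s j (m j))_j` of members of the families but at most the proportion `1 / log ^ U N` of them, for all `l`, all sets `K` of
indices `i` and all nonempty sets `J` of indices `j`: the sums of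
`θ l (n) ∏_{i ∈ K} Λ(n + a i) ∏_{j ∈ J} λ(α j n + s j (m j))` over the classes `b` of the moduli `q ≤ Q` are small in
mean, for all `Q ≤ N / log ^ c N` and all lengths. -/
theorem result (k h B C κ U : ℕ) : ∃ c N₀ : ℕ, ∀ N : ℕ, N₀ ≤ N → ∀ t : ℕ, (2 : ℝ) ^ t ≤ Real.log N ^ κ →
    ∀ (y : Fin t → ℕ) (s : Fin t → ℕ → ℕ), (∀ j, Spread h B C N (y j) (s j)) →
    ∀ α : Fin t → ℕ, (∀ j, 1 ≤ α j) → ∀ a : Fin k → ℕ, (∀ i, a i ≤ B * N) →
    ∀ L : ℕ, (L : ℝ) ≤ Real.log N ^ κ → ∀ θ : Fin L → ℕ → ℂ,
    (∀ l n, 1 ≤ n → n ≤ B * N → ‖θ l n‖ ≤ Real.log N ^ κ) →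
    (((Fintype.piFinset (fun j => Icc 1 (y j))).filter (fun m : Fin t → ℕ =>
      ¬ ∀ l, AlmostAllClassesSmall c B U N (θ l) a α (fun j => s j (m j)))).card : ℝ) ≤
      (∏ j, (y j : ℝ)) / Real.log N ^ U := by
  obtain ⟨c, N0, h1⟩ := Pool.Agent.Run7.h17.JB.joint_bdh k h B C κ U
  refine ⟨c, N0, fun N hN t ht y s hs α hα a ha L hL θ hθ => ?_⟩
  have key := h1 N hN t ht y (fun j m => (s j m : ℤ)) (fun j m hm => by
      rw [Nat.abs_cast]
      exact_mod_cast (hs j).1 m hm) (fun j => spread_energy h B C N (y j) (s j) (hs j)) α hα a ha L hL θ hθ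
  refine le_trans (Nat.cast_le.mpr (card_le_card ?_)) key
  intro m hm
  rw [mem_filter] at hm ⊢
  refine ⟨hm.1, fun hgood => hm.2 ?_⟩
  intro l K J hJ Q hQ Y hY
  refine le_trans (le_of_eq ?_) (hgood l K J hJ Q hQ Y hY)
  refine sum_congr rfl fun q _ => sum_congr rfl fun b _ => ?_
  unfold classSum
  rw [sum_filter]
  congr 1
  refine sum_congr rfl fun n hn => ?_
  rw [mem_Icc] at hn
  by_cases h2 : n % q = b
  · rw [if_pos h2, if_pos h2]
    unfold Pool.Agent.Run7.h17.JB.vp
    congr 1
    refine prod_congr rfl fun j _ => ?_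
    have h3 : 1 ≤ α j * n := Nat.mul_pos (hα j) hn.1
    unfold Pool.Agent.H373R2.T7.exI Pool.Agent.H373R2.T7.liR lam
    rw [if_pos (by omega)]
    congr 2
  · rw [if_neg h2, if_neg h2]

end Pool.Agent.Results.MP_e6fa8b_nt.LargeModuli
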