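import Pool.Agent.Run7.h223.LE1
import Pool.Agent.H560R3.GB.Tup3
import Pool.Agent.R482.Sing
import Pool.Agent.R482.Vm

/-!
# The joint conjecture for almost all shifts from families of nearly minimal additive energy

The shifts of the von Mangoldt function (but the first, which is `0`) and those of the Liouville function are taken
from arbitrary families of integers, each of which has a nearly minimal additive energy of some order: for example
arbitrary sets of at least `N / log ^ C N` integers, Sidon sets with `N ^ (1 / 2) / log ^ C N` elements, or the values of a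
fixed nonconstant polynomial. Used from the starting files: the formula of Hardy and Littlewood for such
families of shifts (`Pool.Agent.H560R3.GB.ftuples_full`), the bilinear estimate for one shift and sums of a fixed length
(`Pool.Agent.H373R2.T7.few_e`), Davenport's theorem for the Liouville function (`Pool.Agent.H373R2.T7.sup_liou`), the
energy of polynomial values (`Pool.Agent.H373R2.T7.energy_poly`).
-/

set_option autoImplicit false
set_option maxHeartbeats 4000000

namespace Pool.Agent.Results.MP_e6fa8b_nt.LowEnergyShifts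

open Finset Filter Polynomial

/-- The additive energy of order `p` of the family `s 1, ..., s x`: the number of solutions of
`s (v 1) + ... + s (v p) = s (w 1) + ... + s (w p)` with all `v i`, `w i` in `{1, ..., x}`. -/
def energy (p x : ℕ) (s : ℕ → ℕ) : ℕ :=
  (((Fintype.piFinset fun _ : Fin p => Icc 1 x) ×ˢ (Fintype.piFinset fun _ : Fin p => Icc 1 x)).filter
    (fun q => ∑ i, s (q.1 i) = ∑ i, s (q.2 i))).card

/-- The family `s 1, ..., s x` lies in `[0, B N]`, and its additive energy of some order `p ≤ h` is at most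
`log ^ C N` times `x ^ (2 p) / N`. -/
def Spread (h B C N x : ℕ) (s : ℕ → ℕ) : Prop :=
  (∀ m ∈ Icc 1 x, s m ≤ B * N) ∧
    ∃ p : ℕ, 1 ≤ p ∧ p ≤ h ∧ (energy p x s : ℝ) * N ≤ Real.log N ^ C * (x : ℝ) ^ (2 * p)

/-- For every prime `p` there is an integer `r` such that `p` divides none of the `r + h i`. -/
def Admissible {k : ℕ} (h : Fin k → ℕ) : Prop := ∀ p : ℕ, p.Prime → ∃ r : ℤ, ∀ i, ¬ (p : ℤ) ∣ r + h i

/-- The number `ν_p` of the distinct residues modulo `p` among the shifts `h i`. -/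
def nu {k : ℕ} (h : Fin k → ℕ) (p : ℕ) : ℕ := (univ.image fun i => h i % p).card

/-- The product of the factors `β_p` of the singular series of the shifts `h i` over the primes `p ≤ z`. -/
noncomputable def sing {k : ℕ} (h : Fin k → ℕ) (z : ℕ) : ℝ :=
  ∏ p ∈ (Icc 1 z).filter Nat.Prime, ((1 - 1 / (p : ℝ)) ^ k)⁻¹ * (1 - (nu h p : ℝ) / p)

/-- The Liouville function, with complex values. -/
noncomputable def lam (n : ℕ) : ℂ := (-1) ^ ArithmeticFunction.cardFactors n

/-- The singular series `S` of the shifts `h i` converges, is positive if the shifts are admissible, and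
`|∑_{n ≤ N} ∏ i, Λ(n + h i) - S N| ≤ N / log ^ U N`. -/
def HardyLittlewood (U N : ℕ) {k : ℕ} (h : Fin k → ℕ) : Prop :=
  ∃ S : ℝ, (Admissible h → 0 < S) ∧ Tendsto (sing h) atTop (nhds S) ∧
    |∑ n ∈ Icc 1 N, ∏ i, ArithmeticFunction.vonMangoldt (n + h i) - S * N| ≤ N / Real.log N ^ U

/-- For every set `K` of indices of the shifts `a i` and every nonempty set `J` of indices of the forms `α j n + c j`,
`|∑_{n ≤ X} θ(n) ∏_{i ∈ K} Λ(n + a i) ∏_{j ∈ J} λ(α j n + c j)| ≤ N / log ^ U N` for all `X` with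
`α j X ≤ B N` (`j ∈ J`). -/
def LiouvilleSmall (B U N : ℕ) (θ : ℕ → ℂ) {k l : ℕ} (a : Fin k → ℕ) (α c : Fin l → ℕ) : Prop :=
  ∀ K : Finset (Fin k), ∀ J : Finset (Fin l), J.Nonempty → ∀ X : ℕ, (∀ j ∈ J, α j * X ≤ B * N) →
    ‖∑ n ∈ Icc 1 X, θ n * (∏ i ∈ K, (ArithmeticFunction.vonMangoldt (n + a i) : ℂ)) * ∏ j ∈ J, lam (α j * n + c j)‖ ≤
      N / Real.log N ^ U

open Classical in
/-- The number of the pairs of vectors `m`, `m'` with `1 ≤ m i ≤ x i` and `1 ≤ m' j ≤ y j` for which `E` is false. -/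
noncomputable def exceptions {k t : ℕ} (x : Fin k → ℕ) (y : Fin t → ℕ) (E : (Fin k → ℕ) → (Fin t → ℕ) → Prop) : ℕ :=
  (((Fintype.piFinset fun i => Icc 1 (x i)) ×ˢ (Fintype.piFinset fun j => Icc 1 (y j))).filter
    (fun q => ¬ E q.1 q.2)).card

lemma exceptions_le {k t : ℕ} (x : Fin k → ℕ) (y : Fin t → ℕ) (E : (Fin k → ℕ) → (Fin t → ℕ) → Prop)
    (S : Finset ((Fin k → ℕ) × (Fin t → ℕ))) (h : ∀ m m', (∀ i, m i ∈ Icc 1 (x i)) → (∀ j, m' j ∈ Icc 1 (y j)) →
      ¬ E m m' → (m, m') ∈ S) : exceptions x y E ≤ S.card := by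
  classical
  unfold exceptions
  apply card_le_card
  rintro ⟨m, m'⟩ hq
  rw [mem_filter, mem_product, Fintype.mem_piFinset, Fintype.mem_piFinset] at hq
  exact h m m' hq.1.1 hq.1.2 hq.2

lemma sing_eq {k : ℕ} (a : Fin k → ℕ) :
    (fun z => Pool.Agent.H373R2.T7.singZ (fun i => (a i : ℤ)) z) = sing (Fin.cons 0 a : Fin (k + 1) → ℕ) := by
  funext z
  have h1 := Pool.Agent.R482.Sg.singZ_sg (Fin.cons 0 a : Fin (k + 1) → ℕ) z
  simp only [Fin.cons_zero, Fin.cons_succ, Nat.cast_zero, sub_zero] at h1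
  rw [h1]
  rfl

lemma adm_eq {k : ℕ} (a : Fin k → ℕ) :
    Pool.Agent.H373R2.T7.Admissible (fun i => (a i : ℤ)) ↔ Admissible (Fin.cons 0 a : Fin (k + 1) → ℕ) := by
  unfold Pool.Agent.H373R2.T7.Admissible Admissible
  apply forall_congr'
  intro p
  apply imp_congr_right
  intro _
  apply exists_congr
  intro r
  rw [Fin.forall_fin_succ]
  simp only [Fin.cons_zero, Fin.cons_succ, Nat.cast_zero, add_zero]

lemma energy_eq (h x : ℕ) (s : ℕ → ℕ) :
    Pool.Agent.H373R2.T7.energy h x (fun m => (s m : ℤ)) = energy h x s := by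
  unfold energy Pool.Agent.H373R2.T7.energy
  congr 1
  apply filter_congr
  intro q _
  change (∑ i, ((s (q.1 i) : ℕ) : ℤ) = ∑ i, ((s (q.2 i) : ℕ) : ℤ)) ↔ _
  constructor
  · intro h; exact_mod_cast h
  · intro h; exact_mod_cast h

/-- the energy of order `h` of a spread family -/
lemma spread_energy (h B C N x : ℕ) (s : ℕ → ℕ) (hs : Spread h B C N x s) :
    (Pool.Agent.H373R2.T7.energy h x (fun m => (s m : ℤ)) : ℝ) * N ≤ Real.log N ^ C * (x : ℝ) ^ (2 * h) := by
  obtain ⟨_, p, _, hp, hE⟩ := hs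
  rw [← energy_eq] at hE
  exact Run7.h223.LE.spread_mono C p h x N hp _ hE

/-- the energy of polynomial values -/
lemma spread_poly (f : ℤ[X]) (hd : 1 ≤ f.natDegree) (hl : 0 < f.leadingCoeff) (hf : ∀ m : ℕ, 1 ≤ m → 0 ≤ f.eval (m : ℤ))
    (B : ℕ) : ∃ h B' N₀ : ℕ, ∀ N : ℕ, N₀ ≤ N → ∀ x : ℕ, N ≤ B * x ^ f.natDegree → x ^ f.natDegree ≤ B * N →
      Spread h B' 1 N x (fun m => (f.eval (m : ℤ)).toNat) := by
  obtain ⟨p, C, hC, hE⟩ := Pool.Agent.H373R2.T7.energy_poly f hd hl
  obtain ⟨A, hA⟩ : ∃ A : ℕ, A = ∑ i ∈ range (f.natDegree + 1), (f.coeff i).natAbs := ⟨_, rfl⟩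
  obtain ⟨N₁, h1⟩ := Pool.Agent.H373R2.T7.ev_L' (B * C)
  refine ⟨p + 1, A * B, N₁ + 1, fun N hN x hx1 hx2 => ?_⟩
  have hx : 1 ≤ x := by
    by_contra hcon
    have hx0 : x = 0 := by omega
    rw [hx0, zero_pow (by omega)] at hx1
    omega
  refine ⟨fun m hm => ?_, p + 1, by omega, le_rfl, ?_⟩
  · rw [mem_Icc] at hm
    have g1 : |f.eval (m : ℤ)| ≤ (A : ℤ) * (x : ℤ) ^ f.natDegree := by
      rw [eval_eq_sum_range]
      refine (abs_sum_le_sum_abs _ _).trans ?_
      rw [hA]
      push_cast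
      rw [sum_mul]
      apply sum_le_sum
      intro i hi
      rw [mem_range] at hi
      rw [abs_mul, abs_pow, Int.abs_natCast]
      apply mul_le_mul_of_nonneg_left _ (abs_nonneg _)
      have hm0 : (1 : ℤ) ≤ m := by exact_mod_cast hm.1
      have hmx : (m : ℤ) ≤ x := by exact_mod_cast hm.2
      calc (m : ℤ) ^ i ≤ (x : ℤ) ^ i := pow_le_pow_left₀ (by omega) hmx _
        _ ≤ (x : ℤ) ^ f.natDegree := pow_le_pow_right₀ (by omega) (by omega)
    have g2 : (((f.eval (m : ℤ)).toNat : ℕ) : ℤ) ≤ ((A * B * N : ℕ) : ℤ) := by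
      rw [Int.toNat_of_nonneg (hf m hm.1)]
      refine (le_abs_self _).trans (g1.trans ?_)
      have g3 : A * x ^ f.natDegree ≤ A * B * N := by
        rw [mul_assoc]
        exact Nat.mul_le_mul_left _ hx2
      exact_mod_cast g3
    exact_mod_cast g2
  · have hL := h1 N (by omega)
    have hx0 : (0 : ℝ) < x := by exact_mod_cast hx
    have e1 : (Pool.Agent.H373R2.T7.energy p x (fun m => f.eval (m : ℤ)) : ℝ) * N ≤
        Real.log N ^ 1 * (x : ℝ) ^ (2 * p) := by
      have hNr : (N : ℝ) ≤ B * (x : ℝ) ^ f.natDegree := by exact_mod_cast hx1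
      have hE' := hE x hx
      calc (Pool.Agent.H373R2.T7.energy p x (fun m => f.eval (m : ℤ)) : ℝ) * N ≤
          Pool.Agent.H373R2.T7.energy p x (fun m => f.eval (m : ℤ)) * (B * (x : ℝ) ^ f.natDegree) :=
            mul_le_mul_of_nonneg_left hNr (Nat.cast_nonneg _)
        _ = B * (Pool.Agent.H373R2.T7.energy p x (fun m => f.eval (m : ℤ)) * (x : ℝ) ^ f.natDegree) := by ring
        _ ≤ B * (C * (x : ℝ) ^ (2 * p)) := mul_le_mul_of_nonneg_left hE' (Nat.cast_nonneg _)
        _ = (B * C) * (x : ℝ) ^ (2 * p) := by ring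
        _ ≤ Real.log N * (x : ℝ) ^ (2 * p) := mul_le_mul_of_nonneg_right hL (by positivity)
        _ = _ := by rw [pow_one]
    have e2 := Run7.h223.LE.spread_mono 1 p (p + 1) x N (by omega) _ e1
    have e3 : Pool.Agent.H373R2.T7.energy (p + 1) x (fun m => f.eval (m : ℤ)) =
        energy (p + 1) x (fun m => (f.eval (m : ℤ)).toNat) := by
      rw [← energy_eq]
      unfold Pool.Agent.H373R2.T7.energy
      congr 1
      apply filter_congr
      intro q hq
      rw [mem_product, Fintype.mem_piFinset, Fintype.mem_piFinset] at hq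
      have e4 : ∀ v : Fin (p + 1) → ℕ, (∀ i, v i ∈ Icc 1 x) → ∑ i, f.eval ((v i : ℕ) : ℤ) =
          ∑ i, (((f.eval ((v i : ℕ) : ℤ)).toNat : ℕ) : ℤ) := by
        intro v hv
        apply sum_congr rfl
        intro i _
        rw [Int.toNat_of_nonneg (hf _ (mem_Icc.1 (hv i)).1)]
      rw [e4 _ hq.1, e4 _ hq.2]
    rw [← e3]
    exact e2

/-- Let `k ≥ 1`, `h`, `B`, `C`, `κ` and `U` be fixed and let `N` be large.

Let `s i 1, ..., s i (x i)` (`i < k`) and `r j 1, ..., r j (y j)` (`j < t`, where `2 ^ t ≤ log ^ κ N`) be arbitrary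
families of integers in `[0, B N]`, each of which has an additive energy of some order `p ≤ h` of at most
`log ^ C N` times `x ^ (2 p) / N`, where `x` is the length of the family. Let `α j ≥ 1`, and let `θ q` be at most
`log ^ κ N` weights, bounded by `log ^ κ N` on `[1, B N]`. Then, for all but at most a proportion `1 / log ^ U N` of
the pairs of vectors `m`, `m'` with `1 ≤ m i ≤ x i` and `1 ≤ m' j ≤ y j`, the formula of Hardy and Littlewood holds for the
shifts `0, s 1 (m 1), ..., s k (m k)`, and all the correlations of the von Mangoldt function at `n`, `n + s i (m i)`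
and of the Liouville function at `α j n + r j (m' j)`, with at least one Liouville factor and with each of the
weights `θ q` and `θ q Λ`, are at most `N / log ^ U N`.

The values `f(1), ..., f(x)` of a fixed nonconstant polynomial `f` of degree `d`, with integer coefficients and with
values `≥ 0`, form such a family whenever `x ^ d` has the order of magnitude of `N`. -/
theorem result (k h B C κ U : ℕ) (hk : 1 ≤ k) :
    (∃ N₀ : ℕ, ∀ N : ℕ, N₀ ≤ N → ∀ (x : Fin k → ℕ) (s : Fin k → ℕ → ℕ), (∀ i, Spread h B C N (x i) (s i)) →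
      ∀ t : ℕ, (2 : ℝ) ^ t ≤ Real.log N ^ κ → ∀ (y : Fin t → ℕ) (r : Fin t → ℕ → ℕ), (∀ j, Spread h B C N (y j) (r j)) →
      ∀ α : Fin t → ℕ, (∀ j, 1 ≤ α j) → ∀ L : ℕ, (L : ℝ) ≤ Real.log N ^ κ →
      ∀ θ : Fin L → ℕ → ℂ, (∀ q n, 1 ≤ n → n ≤ B * N → ‖θ q n‖ ≤ Real.log N ^ κ) →
      (exceptions x y (fun m m' => HardyLittlewood U N (Fin.cons 0 (fun i => s i (m i)) : Fin (k + 1) → ℕ) ∧
        ∀ q, LiouvilleSmall B U N (θ q) (fun i => s i (m i)) α (fun j => r j (m' j)) ∧
          LiouvilleSmall B U N (fun n => θ q n * (ArithmeticFunction.vonMangoldt n : ℂ)) (fun i => s i (m i)) α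
            (fun j => r j (m' j))) : ℝ) ≤ (∏ i, (x i : ℝ)) * (∏ j, (y j : ℝ)) / Real.log N ^ U) ∧
    (∀ f : ℤ[X], 1 ≤ f.natDegree → 0 < f.leadingCoeff → (∀ m : ℕ, 1 ≤ m → 0 ≤ f.eval (m : ℤ)) → ∀ D : ℕ,
      ∃ h' B' N₀ : ℕ, ∀ N : ℕ, N₀ ≤ N → ∀ z : ℕ, N ≤ D * z ^ f.natDegree → z ^ f.natDegree ≤ D * N →
        Spread h' B' 1 N z (fun m => (f.eval (m : ℤ)).toNat)) := by
  classical
  refine ⟨?_, fun f hd hl hf D => spread_poly f hd hl hf D⟩
  rcases Nat.eq_zero_or_pos h with hh | hh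
  · -- no family is spread
    refine ⟨0, fun N _ x s hs => ?_⟩
    obtain ⟨_, p, hp1, hp2, _⟩ := hs ⟨0, by omega⟩
    omega
  obtain ⟨κ', hκ'⟩ : ∃ κ', κ' = κ + 2 + 2 * k := ⟨_, rfl⟩
  obtain ⟨N₁, h1⟩ := Pool.Agent.H560R3.GB.ftuples_full k h B C (U + 2) hk hh
  obtain ⟨N₂, h2⟩ := Run7.h223.LE.forms Pool.Agent.H373R2.T7.liR Pool.Agent.H373R2.T7.liR_norm
    Pool.Agent.H373R2.T7.sup_liou h B C κ' (U + 1)
  obtain ⟨N₃, h3⟩ := Pool.Agent.R482.Vm.vm_of_tuple k (U + 1) B
  obtain ⟨c₀, hc₀, hlow⟩ := Pool.Agent.H373R2.T7.singZ_low k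
  obtain ⟨N₄, h4⟩ := Pool.Agent.H373R2.T7.ev_L' (Real.log (2 * B + 2 : ℝ) + 8)
  refine ⟨N₁ + N₂ + N₃ + N₄ + 3, fun N hN x s hs t ht y r hr α hα L hL θ hθ => ?_⟩
  have hLg := h4 N (by omega)
  have hN0 : (0 : ℝ) < N := by exact_mod_cast (by omega : 0 < N)
  have hB0 : (0 : ℝ) ≤ B := Nat.cast_nonneg _
  have hlB : 0 ≤ Real.log (2 * B + 2 : ℝ) := Real.log_nonneg (by linarith)
  obtain ⟨Lg, hLgd⟩ : ∃ Lg, Lg = Real.log N := ⟨_, rfl⟩
  have hL8 : 8 ≤ Lg := by rw [hLgd]; linarith
  have hL1 : 1 ≤ Lg := by linarith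
  have hL0 : 0 < Lg := by linarith
  have hxp : 0 ≤ ∏ i, (x i : ℝ) := prod_nonneg fun _ _ => Nat.cast_nonneg _
  have hyp : 0 ≤ ∏ j, (y j : ℝ) := prod_nonneg fun _ _ => Nat.cast_nonneg _
  -- the von Mangoldt function is small
  have hΛ : ∀ n a, 1 ≤ n → n ≤ B * N → a ≤ B * N → ‖(ArithmeticFunction.vonMangoldt (n + a) : ℂ)‖ ≤ Lg ^ 2 := by
    intro n a hn1 hn2 ha
    rw [Complex.norm_real, Real.norm_eq_abs, abs_of_nonneg ArithmeticFunction.vonMangoldt_nonneg]
    refine ArithmeticFunction.vonMangoldt_le_log.trans ?_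
    have h6 : ((n + a : ℕ) : ℝ) ≤ (2 * B + 2 : ℝ) * N := by
      have h8 : ((n + a : ℕ) : ℝ) ≤ ((2 * (B * N) : ℕ) : ℝ) := by exact_mod_cast (by omega : n + a ≤ 2 * (B * N))
      push_cast at h8 ⊢
      nlinarith
    refine (Real.log_le_log (by exact_mod_cast (by omega : 0 < n + a)) h6).trans ?_
    rw [Real.log_mul (by positivity) hN0.ne', ← hLgd]
    rw [← hLgd] at hLg
    nlinarith
  by_cases hx : ∀ i, 1 ≤ x i
  swap
  · -- an empty family
    push Not at hx
    obtain ⟨i, hi⟩ := hx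
    have e1 := exceptions_le x y (fun m m' => HardyLittlewood U N (Fin.cons 0 (fun i => s i (m i)) : Fin (k + 1) → ℕ) ∧
        ∀ q, LiouvilleSmall B U N (θ q) (fun i => s i (m i)) α (fun j => r j (m' j)) ∧
          LiouvilleSmall B U N (fun n => θ q n * (ArithmeticFunction.vonMangoldt n : ℂ)) (fun i => s i (m i)) α
            (fun j => r j (m' j))) ∅ (by
      intro m m' hm _ _
      have := mem_Icc.1 (hm i)
      omega)
    rw [card_empty, Nat.le_zero] at e1
    rw [e1, Nat.cast_zero, ← hLgd]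
    exact div_nonneg (mul_nonneg hxp hyp) (by positivity)
  -- the exceptions for the primes
  obtain ⟨G1, hG1⟩ : ∃ G1 : (Fin k → ℕ) → Prop, G1 = fun m =>
      ∃ S : ℝ, Filter.Tendsto (fun z => Pool.Agent.H373R2.T7.singZ (fun i => (s i (m i) : ℤ)) z) Filter.atTop (nhds S) ∧
        |Pool.Agent.H373R2.T7.tupleCount (fun i => (s i (m i) : ℤ)) N - S * N| ≤ (N : ℝ) / Lg ^ (U + 2) := ⟨_, rfl⟩
  have hc1 : (((Fintype.piFinset (fun i => Icc 1 (x i))).filter (fun m => ¬ G1 m)).card : ℝ) ≤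
      (∏ i, (x i : ℝ)) / Lg ^ (U + 1) := by
    have e1 := h1 N (by omega) x s hx (fun i => (hs i).1) (fun i => spread_energy h B C N (x i) (s i) (hs i))
    rw [← hLgd] at e1
    have e2 : (((Fintype.piFinset (fun i => Icc 1 (x i))).filter (fun m => ¬ G1 m)).card : ℝ) ≤
        (∏ i, (x i : ℝ)) / Lg ^ (U + 2) := by
      rw [hG1]
      convert e1
    refine e2.trans ?_
    apply div_le_div_of_nonneg_left hxp (by positivity)
    exact pow_le_pow_right₀ hL1 (by omega)
  -- the good vectors satisfy the formula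
  have hHL : ∀ m ∈ Fintype.piFinset (fun i => Icc 1 (x i)), G1 m →
      HardyLittlewood U N (Fin.cons 0 (fun i => s i (m i)) : Fin (k + 1) → ℕ) := by
    intro m hm hg
    rw [hG1] at hg
    obtain ⟨S, q1, q2⟩ := hg
    refine ⟨S, fun hadm => ?_, ?_, ?_⟩
    · have : c₀ ≤ S := ge_of_tendsto' q1 (hlow _ ((adm_eq _).2 hadm))
      linarith
    · rw [← sing_eq]
      exact q1
    · have g1 := h3 N (by omega) (fun i => s i (m i)) (fun i => (hs i).1 _ (Fintype.mem_piFinset.1 hm i)) S
        (by rw [← hLgd]; exact q2)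
      rw [← hLgd] at g1 ⊢
      refine le_trans (le_of_eq ?_) (g1.trans ?_)
      · congr 2
        apply sum_congr rfl
        intro n _
        rw [Fin.prod_univ_succ, Fin.cons_zero, add_zero]
        simp only [Fin.cons_succ]
      · apply div_le_div_of_nonneg_left hN0.le (by positivity)
        exact pow_le_pow_right₀ hL1 (by omega)
  -- the exceptions for the Liouville function
  obtain ⟨G2, hG2⟩ : ∃ G2 : (Fin k → ℕ) → (Fin t → ℕ) → Prop, G2 = fun m m' =>
      ∀ q, LiouvilleSmall B (U + 1) N (θ q) (fun i => s i (m i)) α (fun j => r j (m' j)) ∧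
          LiouvilleSmall B (U + 1) N (fun n => θ q n * (ArithmeticFunction.vonMangoldt n : ℂ)) (fun i => s i (m i)) α
            (fun j => r j (m' j)) := ⟨_, rfl⟩
  have hexI : ∀ n c : ℕ, 1 ≤ n → Pool.Agent.H373R2.T7.exI Pool.Agent.H373R2.T7.liR ((n : ℤ) + (c : ℤ)) = lam (n + c) := by
    intro n c hn
    unfold Pool.Agent.H373R2.T7.exI Pool.Agent.H373R2.T7.liR lam
    rw [if_pos (by omega), show (n : ℤ) + (c : ℤ) = ((n + c : ℕ) : ℤ) by push_cast; ring, Int.toNat_natCast]
  have hc2 : ∀ m ∈ Fintype.piFinset (fun i => Icc 1 (x i)),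
      (((Fintype.piFinset (fun j => Icc 1 (y j))).filter (fun m' => ¬ G2 m m')).card : ℝ) ≤
      (∏ j, (y j : ℝ)) / Lg ^ (U + 1) := by
    intro m hm
    rw [Fintype.mem_piFinset] at hm
    obtain ⟨e, -⟩ : ∃ e : (Fin L × Bool × Finset (Fin k)) ≃ Fin (L * (2 * 2 ^ k)), True := by
      refine ⟨(Fintype.equivFinOfCardEq ?_), trivial⟩
      simp
    have key := h2 N (by omega) t (ht.trans (by
        rw [← hLgd]
        exact pow_le_pow_right₀ hL1 (by omega))) y (fun j n => (r j n : ℤ)) (fun j n hn => by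
        have g1 := (hr j).1 n hn
        rw [Int.abs_natCast]
        exact_mod_cast g1)
      (fun j => spread_energy h B C N (y j) (r j) (hr j)) α hα (L * (2 * 2 ^ k)) (by
        rw [← hLgd] at hL ⊢
        push_cast
        rw [hκ', show κ + 2 + 2 * k = κ + (1 + (1 + 2 * k)) by ring, pow_add, pow_add]
        apply mul_le_mul hL _ (by positivity) (by positivity)
        apply mul_le_mul (by rw [pow_one]; linarith) _ (by positivity) (by positivity)
        calc (2 : ℝ) ^ k ≤ Lg ^ k := pow_le_pow_left₀ (by norm_num) (by linarith) _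
          _ ≤ Lg ^ (1 + 2 * k) := pow_le_pow_right₀ hL1 (by omega))
      (fun u n => θ (e.symm u).1 n * (if (e.symm u).2.1 then (ArithmeticFunction.vonMangoldt n : ℂ) else 1) *
        ∏ i ∈ (e.symm u).2.2, (ArithmeticFunction.vonMangoldt (n + s i (m i)) : ℂ)) (by
        intro u n hn1 hn2
        rw [← hLgd] at hθ ⊢
        rw [norm_mul, norm_mul, norm_prod, hκ', pow_add, pow_add]
        apply mul_le_mul _ _ (prod_nonneg fun _ _ => norm_nonneg _) (by positivity)
        · apply mul_le_mul (hθ _ n hn1 hn2) _ (norm_nonneg _) (by positivity)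
          split_ifs
          · have := hΛ n 0 hn1 hn2 (Nat.zero_le _)
            rw [add_zero] at this
            exact this
          · rw [norm_one]; exact one_le_pow₀ hL1
        · calc ∏ i ∈ (e.symm u).2.2, ‖(ArithmeticFunction.vonMangoldt (n + s i (m i)) : ℂ)‖ ≤
              ∏ _i ∈ (e.symm u).2.2, Lg ^ 2 :=
                prod_le_prod (fun _ _ => norm_nonneg _) (fun i _ => hΛ n _ hn1 hn2 ((hs i).1 _ (hm i)))
            _ = (Lg ^ 2) ^ (e.symm u).2.2.card := by rw [prod_const]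
            _ ≤ (Lg ^ 2) ^ k := by
                apply pow_le_pow_right₀ (one_le_pow₀ hL1)
                refine (card_le_univ _).trans ?_
                rw [Fintype.card_fin]
            _ = Lg ^ (2 * k) := by rw [← pow_mul])
    rw [← hLgd] at key
    refine le_trans ?_ key
    rw [Nat.cast_le]
    apply card_le_card
    intro m' hm'
    rw [mem_filter] at hm' ⊢
    refine ⟨hm'.1, fun hall => hm'.2 ?_⟩
    rw [hG2]
    intro q
    refine ⟨fun K J hJ X hX => ?_, fun K J hJ X hX => ?_⟩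
    · have g1 := hall (e (q, false, K)) J hJ X hX
      rw [Equiv.symm_apply_apply] at g1
      rw [← hLgd]
      refine le_trans (le_of_eq ?_) g1
      congr 1
      apply sum_congr rfl
      intro n hn
      rw [mem_Icc] at hn
      simp only [Bool.false_eq_true, if_false, mul_one]
      congr 1
      apply prod_congr rfl
      intro j _
      exact (hexI (α j * n) (r j (m' j)) (Nat.mul_pos (hα j) hn.1)).symm
    · have g1 := hall (e (q, true, K)) J hJ X hX
      rw [Equiv.symm_apply_apply] at g1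
      rw [← hLgd]
      refine le_trans (le_of_eq ?_) g1
      congr 1
      apply sum_congr rfl
      intro n hn
      rw [mem_Icc] at hn
      simp only [if_true]
      congr 1
      apply prod_congr rfl
      intro j _
      exact (hexI (α j * n) (r j (m' j)) (Nat.mul_pos (hα j) hn.1)).symm
  -- counting
  have hLS : ∀ (θ' : ℕ → ℂ) (a : Fin k → ℕ) (c : Fin t → ℕ), LiouvilleSmall B (U + 1) N θ' a α c →
      LiouvilleSmall B U N θ' a α c := by
    intro θ' a c hl K J hJ X hX
    refine (hl K J hJ X hX).trans ?_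
    rw [← hLgd]
    apply div_le_div_of_nonneg_left hN0.le (by positivity)
    exact pow_le_pow_right₀ hL1 (by omega)
  have hsub := exceptions_le x y (fun m m' => HardyLittlewood U N (Fin.cons 0 (fun i => s i (m i)) : Fin (k + 1) → ℕ) ∧
        ∀ q, LiouvilleSmall B U N (θ q) (fun i => s i (m i)) α (fun j => r j (m' j)) ∧
          LiouvilleSmall B U N (fun n => θ q n * (ArithmeticFunction.vonMangoldt n : ℂ)) (fun i => s i (m i)) α
            (fun j => r j (m' j)))
      ((((Fintype.piFinset fun i => Icc 1 (x i)).filter (fun m => ¬ G1 m)) ×ˢ (Fintype.piFinset fun j => Icc 1 (y j))) ∪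
      (Fintype.piFinset fun i => Icc 1 (x i)).biUnion (fun m =>
        ({m} : Finset (Fin k → ℕ)) ×ˢ ((Fintype.piFinset fun j => Icc 1 (y j)).filter (fun m' => ¬ G2 m m')))) (by
    intro m m' hm hm' hbad
    have hmF : m ∈ Fintype.piFinset fun i => Icc 1 (x i) := Fintype.mem_piFinset.2 hm
    have hmF' : m' ∈ Fintype.piFinset fun j => Icc 1 (y j) := Fintype.mem_piFinset.2 hm'
    rw [mem_union, mem_product, mem_filter, mem_biUnion]
    by_cases h5 : G1 m
    · right
      refine ⟨m, hmF, ?_⟩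
      rw [mem_product, mem_filter, mem_singleton]
      refine ⟨rfl, hmF', fun h6 => hbad ⟨hHL m hmF h5, fun l => ?_⟩⟩
      rw [hG2] at h6
      exact ⟨hLS _ _ _ (h6 l).1, hLS _ _ _ (h6 l).2⟩
    · left
      exact ⟨⟨hmF, h5⟩, hmF'⟩)
  have hcx : ((Fintype.piFinset fun i => Icc 1 (x i)).card : ℝ) = ∏ i, (x i : ℝ) := by
    rw [Fintype.card_piFinset]
    push_cast
    apply prod_congr rfl
    intro i _
    rw [Nat.card_Icc, Nat.add_sub_cancel]
  have hcy : ((Fintype.piFinset fun j => Icc 1 (y j)).card : ℝ) = ∏ j, (y j : ℝ) := by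
    rw [Fintype.card_piFinset]
    push_cast
    apply prod_congr rfl
    intro i _
    rw [Nat.card_Icc, Nat.add_sub_cancel]
  rw [← hLgd]
  calc _ ≤ ((((((Fintype.piFinset fun i => Icc 1 (x i)).filter (fun m => ¬ G1 m)) ×ˢ
        (Fintype.piFinset fun j => Icc 1 (y j))) ∪
      (Fintype.piFinset fun i => Icc 1 (x i)).biUnion (fun m =>
        ({m} : Finset (Fin k → ℕ)) ×ˢ ((Fintype.piFinset fun j => Icc 1 (y j)).filter (fun m' => ¬ G2 m m')))).card : ℕ) : ℝ) := by
        rw [Nat.cast_le]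
        exact hsub
    _ ≤ (((Fintype.piFinset fun i => Icc 1 (x i)).filter (fun m => ¬ G1 m)).card : ℝ) *
          ((Fintype.piFinset fun j => Icc 1 (y j)).card : ℝ) +
        ∑ m ∈ Fintype.piFinset fun i => Icc 1 (x i),
          (((Fintype.piFinset fun j => Icc 1 (y j)).filter (fun m' => ¬ G2 m m')).card : ℝ) := by
        have e1 := card_union_le (((Fintype.piFinset fun i => Icc 1 (x i)).filter (fun m => ¬ G1 m)) ×ˢ
          (Fintype.piFinset fun j => Icc 1 (y j))) ((Fintype.piFinset fun i => Icc 1 (x i)).biUnion (fun m =>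
          ({m} : Finset (Fin k → ℕ)) ×ˢ ((Fintype.piFinset fun j => Icc 1 (y j)).filter (fun m' => ¬ G2 m m'))))
        have e2 := card_biUnion_le (s := Fintype.piFinset fun i => Icc 1 (x i)) (t := fun m =>
          ({m} : Finset (Fin k → ℕ)) ×ˢ ((Fintype.piFinset fun j => Icc 1 (y j)).filter (fun m' => ¬ G2 m m')))
        have e3 := e1.trans (Nat.add_le_add_left e2 _)
        simp only [card_product, card_singleton, one_mul] at e3
        exact_mod_cast e3
    _ ≤ ((∏ i, (x i : ℝ)) / Lg ^ (U + 1)) * (∏ j, (y j : ℝ)) +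
        ∑ _m ∈ Fintype.piFinset fun i => Icc 1 (x i), (∏ j, (y j : ℝ)) / Lg ^ (U + 1) := by
        apply add_le_add
        · rw [hcy]
          exact mul_le_mul_of_nonneg_right hc1 hyp
        · exact sum_le_sum hc2
    _ = (2 / Lg) * ((∏ i, (x i : ℝ)) * (∏ j, (y j : ℝ)) / Lg ^ U) := by
        rw [Finset.sum_const, nsmul_eq_mul, hcx, pow_succ]
        field_simp
        ring
    _ ≤ 1 * ((∏ i, (x i : ℝ)) * (∏ j, (y j : ℝ)) / Lg ^ U) := by
        apply mul_le_mul_of_nonneg_right _ (by positivity)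
        rw [div_le_one hL0]
        linarith
    _ = _ := one_mul _

end Pool.Agent.Results.MP_e6fa8b_nt.LowEnergyShifts
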