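import Mathlib
import Pool.Agent.Run7.h402.PC.C11

/-!
# The Hardy-Littlewood-Chowla statement with up to `B log log X` values of the von Mangoldt function

The shifts of the von Mangoldt function range over an arbitrary box with sides at least `X ^ (1/3) (log X) ^ C`. In the
first part there is one value of the Liouville function, at an arbitrary fixed shift `h ≤ X`; in the second part there is an
arbitrary bounded weight `g` (any product of further values of the Liouville function, for instance) and the shift of one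
value of the Liouville function ranges over an interval of the same length. Savings and exceptional sets are arbitrary
powers of `log X`, and the estimate holds for all sums up to `y ≤ X` simultaneously.
-/

set_option autoImplicit false

namespace Pool.Agent.Results.MP_e6fa8b_nt.ManyFactorsShortBoxes

open Finset

/-- the Liouville function -/
noncomputable def liouville (n : ℕ) : ℝ := (-1) ^ ArithmeticFunction.cardFactors n

theorem sum_shift (X y : ℕ) (hy : y ≤ X) (c : ℕ → ℝ) (f : ℕ → ℝ) (F : ℕ → ℝ) (hc : ∀ n, F (n + 1) = c n * f n) :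
    ∑ n ∈ range X, Run7.h402.PC.tr c y n * f n = ∑ n ∈ Icc 1 y, F n := by
  have e1 : ∑ n ∈ range X, Run7.h402.PC.tr c y n * f n = ∑ n ∈ range y, F (n + 1) := by
    have e2 : range y = (range X).filter (fun n => n < y) := by
      ext n
      rw [mem_filter, mem_range, mem_range]
      omega
    rw [e2, sum_filter]
    apply sum_congr rfl
    intro n _
    unfold Run7.h402.PC.tr
    split_ifs
    · exact (hc n).symm
    · rw [zero_mul]
  rw [e1]
  refine sum_bij' (fun n _ => n + 1) (fun n _ => n - 1) ?_ ?_ ?_ ?_ ?_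
  · intro n hn
    rw [mem_range] at hn
    rw [mem_Icc]
    omega
  · intro n hn
    rw [mem_Icc] at hn
    rw [mem_range]
    omega
  · intro n hn
    omega
  · intro n hn
    rw [mem_Icc] at hn
    omega
  · intro n hn
    rfl

theorem result (A B : ℕ) : ∃ C X₀ : ℕ, ∀ X : ℕ, X₀ ≤ X → ∀ k : ℕ, 1 ≤ k → (k : ℝ) ≤ B * Real.log (Real.log X) →
    ∀ b H : Fin k → ℕ, (∀ i, b i ≤ X ∧ (X : ℝ) ^ (1 / 3 : ℝ) * Real.log X ^ C ≤ H i ∧ H i ≤ X) →
    (∀ h ≤ X, ({a : Fin k → ℕ | (∀ i, b i ≤ a i ∧ a i < b i + H i) ∧ ∃ y ≤ X, (X : ℝ) / Real.log X ^ A <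
      |∑ n ∈ Icc 1 y, liouville (n + h) * ∏ i, ArithmeticFunction.vonMangoldt (n + a i)|}.ncard : ℝ) ≤
        (∏ i, (H i : ℝ)) / Real.log X ^ A) ∧
    ∀ b' H' : ℕ, b' ≤ X → (X : ℝ) ^ (1 / 3 : ℝ) * Real.log X ^ C ≤ H' → H' ≤ X → ∀ g : ℕ → ℝ, (∀ n, |g n| ≤ 1) →
      ({x : (Fin k → ℕ) × ℕ | (∀ i, b i ≤ x.1 i ∧ x.1 i < b i + H i) ∧ (b' ≤ x.2 ∧ x.2 < b' + H') ∧ ∃ y ≤ X, (X : ℝ) / Real.log X ^ A <
        |∑ n ∈ Icc 1 y, g n * liouville (n + x.2) * ∏ i, ArithmeticFunction.vonMangoldt (n + x.1 i)|}.ncard : ℝ) ≤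
          (∏ i, (H i : ℝ)) * H' / Real.log X ^ A := by
  classical
  obtain ⟨C1, X1, h1⟩ := Run7.h402.PC.hlc_fixed A B
  obtain ⟨C2, X2, h2⟩ := Run7.h402.PC.hlc_avg A B
  refine ⟨C1 + C2, max (max X1 X2) 3, fun X hX k hk hkB b H hH => ?_⟩
  have hX1 : X1 ≤ X := le_trans (le_trans (le_max_left _ _) (le_max_left _ _)) hX
  have hX2 : X2 ≤ X := le_trans (le_trans (le_max_right _ _) (le_max_left _ _)) hX
  have hX3 : 3 ≤ X := le_trans (le_max_right _ _) hX
  have hL1 : 1 ≤ Real.log X := by
    rw [Real.le_log_iff_exp_le (by exact_mod_cast (by omega : 0 < X))]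
    have h3 : (3 : ℝ) ≤ X := by exact_mod_cast hX3
    linarith [Real.exp_one_lt_d9]
  have hX3pos : 0 ≤ (X : ℝ) ^ (1 / 3 : ℝ) := by positivity
  have hw1 : (X : ℝ) ^ (1 / 3 : ℝ) * Real.log X ^ C1 ≤ (X : ℝ) ^ (1 / 3 : ℝ) * Real.log X ^ (C1 + C2) :=
    mul_le_mul_of_nonneg_left (pow_le_pow_right₀ hL1 (by omega)) hX3pos
  have hw2 : (X : ℝ) ^ (1 / 3 : ℝ) * Real.log X ^ C2 ≤ (X : ℝ) ^ (1 / 3 : ℝ) * Real.log X ^ (C1 + C2) :=
    mul_le_mul_of_nonneg_left (pow_le_pow_right₀ hL1 (by omega)) hX3pos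
  have hlam : ∀ n, 1 ≤ n → Pool.Agent.Run7.h794.MK.lio n = liouville n := by
    intro n hn
    exact Run7.h402.PC.lio_eq_lam n hn
  constructor
  · intro h hh
    have h3 := h1 X hX1 k hk hkB b H (fun i => (hH i).1) (fun i => hw1.trans (hH i).2.1) (fun i => (hH i).2.2) h hh
    refine le_trans ?_ h3
    rw [← Set.ncard_coe_finset]
    have hsub : {a : Fin k → ℕ | (∀ i, b i ≤ a i ∧ a i < b i + H i) ∧ ∃ y ≤ X, (X : ℝ) / Real.log X ^ A <
      |∑ n ∈ Icc 1 y, liouville (n + h) * ∏ i, ArithmeticFunction.vonMangoldt (n + a i)|} ⊆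
      (fun m : Fin k → ℕ => fun i => b i + m i) '' (((Fintype.piFinset (fun i : Fin k => range (H i))).filter (fun x => ∃ y ≤ X, (X : ℝ) / Real.log X ^ A <
      |∑ n ∈ range X, Run7.h402.PC.tr (fun n => Pool.Agent.N791.C2.lam (n + 1 + h)) y n * ∏ i, ArithmeticFunction.vonMangoldt (n + (b i + 1 + x i))|) : Finset (Fin k → ℕ)) : Set (Fin k → ℕ)) := by
      rintro a ⟨ha, y, hy, hbig⟩
      refine ⟨fun i => a i - b i, ?_, ?_⟩
      · rw [Finset.mem_coe, mem_filter, Fintype.mem_piFinset]
        refine ⟨fun i => mem_range.2 (by have := ha i; omega), y, hy, ?_⟩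
        rw [sum_shift X y hy _ _ (fun n => liouville (n + h) * ∏ i, ArithmeticFunction.vonMangoldt (n + a i))]
        · exact hbig
        · intro n
          show liouville (n + 1 + h) * _ = Pool.Agent.N791.C2.lam (n + 1 + h) * _
          congr 1
          apply prod_congr rfl
          intro i _
          congr 1
          have := ha i
          show n + 1 + a i = n + (b i + 1 + (a i - b i))
          omega
      · funext i
        have := ha i
        show b i + (a i - b i) = a i
        omega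
    have hfin := Finset.finite_toSet (((Fintype.piFinset (fun i : Fin k => range (H i))).filter (fun x => ∃ y ≤ X, (X : ℝ) / Real.log X ^ A <
      |∑ n ∈ range X, Run7.h402.PC.tr (fun n => Pool.Agent.N791.C2.lam (n + 1 + h)) y n * ∏ i, ArithmeticFunction.vonMangoldt (n + (b i + 1 + x i))|) : Finset (Fin k → ℕ)))
    exact_mod_cast (Set.ncard_le_ncard hsub (hfin.image _)).trans (Set.ncard_image_le hfin)
  · intro b' H' hb' hH1' hH2' g hg
    have h3 := h2 X hX2 k hk hkB b H (fun i => (hH i).1) (fun i => hw2.trans (hH i).2.1) (fun i => (hH i).2.2) b' H' hb'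
      (hw2.trans hH1') hH2' g hg
    refine le_trans ?_ h3
    rw [← Set.ncard_coe_finset]
    have hsub : {x : (Fin k → ℕ) × ℕ | (∀ i, b i ≤ x.1 i ∧ x.1 i < b i + H i) ∧ (b' ≤ x.2 ∧ x.2 < b' + H') ∧ ∃ y ≤ X, (X : ℝ) / Real.log X ^ A <
        |∑ n ∈ Icc 1 y, g n * liouville (n + x.2) * ∏ i, ArithmeticFunction.vonMangoldt (n + x.1 i)|} ⊆
      (fun m : (Fin k → ℕ) × ℕ => ((fun i => b i + m.1 i, b' + m.2) : (Fin k → ℕ) × ℕ)) ''
      ((((Fintype.piFinset (fun i : Fin k => range (H i))) ×ˢ range H').filter (fun x => ∃ y ≤ X, (X : ℝ) / Real.log X ^ A <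
      |∑ n ∈ range X, Run7.h402.PC.cw g b' x.2 y n * ∏ i, ArithmeticFunction.vonMangoldt (n + (b i + 1 + x.1 i))|) : Finset ((Fin k → ℕ) × ℕ)) : Set ((Fin k → ℕ) × ℕ)) := by
      rintro ⟨a, h⟩ ⟨ha, hh, y, hy, hbig⟩
      refine ⟨(fun i => a i - b i, h - b'), ?_, ?_⟩
      · rw [Finset.mem_coe, mem_filter, mem_product, Fintype.mem_piFinset]
        refine ⟨⟨fun i => mem_range.2 (by have := ha i; simp only at this ⊢; omega), mem_range.2 (by simp only at hh ⊢; omega)⟩, y, hy, ?_⟩
        have e1 := sum_shift X y hy (fun n => g (n + 1) * Pool.Agent.Run7.h794.MK.lio (n + 1 + b' + (h - b'))) (fun n => ∏ i, ArithmeticFunction.vonMangoldt (n + (b i + 1 + (a i - b i))))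
          (fun n => g n * liouville (n + h) * ∏ i, ArithmeticFunction.vonMangoldt (n + a i)) (by
            intro n
            rw [hlam (n + 1 + b' + (h - b')) (by omega)]
            have e2 : n + 1 + b' + (h - b') = n + 1 + h := by
              simp only at hh
              omega
            rw [e2]
            congr 1
            apply prod_congr rfl
            intro i _
            congr 1
            have := ha i
            simp only at this
            omega)
        show (X : ℝ) / Real.log X ^ A < |∑ n ∈ range X, Run7.h402.PC.tr (fun n => g (n + 1) * Pool.Agent.Run7.h794.MK.lio (n + 1 + b' + (h - b'))) y n * ∏ i, ArithmeticFunction.vonMangoldt (n + (b i + 1 + (a i - b i)))|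
        rw [e1]
        exact hbig
      · apply Prod.ext
        · funext i
          have := ha i
          simp only at this
          show b i + (a i - b i) = a i
          omega
        · simp only at hh
          show b' + (h - b') = h
          omega
    have hfin := Finset.finite_toSet (((Fintype.piFinset (fun i : Fin k => range (H i))) ×ˢ range H').filter (fun x => ∃ y ≤ X, (X : ℝ) / Real.log X ^ A <
      |∑ n ∈ range X, Run7.h402.PC.cw g b' x.2 y n * ∏ i, ArithmeticFunction.vonMangoldt (n + (b i + 1 + x.1 i))|) : Finset ((Fin k → ℕ) × ℕ))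
    exact_mod_cast (Set.ncard_le_ncard hsub (hfin.image _)).trans (Set.ncard_image_le hfin)

end Pool.Agent.Results.MP_e6fa8b_nt.ManyFactorsShortBoxes
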