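import Pool.Agent.Run7.h794.MK.Des2
import Pool.Agent.Run7.h794.MK.Fin
import Pool.Agent.N384.MQ.Ex
import Pool.Agent.N384.MQ.Quot

/-!
# Joint correlations: arbitrary shifts of `Λ`, a growing number of shifts of `λ` from short thin families

The values of the von Mangoldt function at arbitrary linear forms, arbitrary weights, and the values of the Liouville function at
`α n + b_l + a_l y_(i_l)`, `l ∈ I`, for almost all sequences `i_1, …, i_r` of members of ANY flat family of residues modulo `q`,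
`N ^ (1 / 3) log ^ C N ≤ q ≤ Bq N` (the family may have only a power of `log N` members). The number `r` of the factors is not
bounded: (1) holds for up to `log ^ A N` systems at once, for example for all nonempty sets `I` and all multiples `a ≤ log ^ T N` if
`2 ^ r ≤ log ^ A N`; (2) is the consequence for the `2 ^ r` patterns of signs: they are equidistributed with respect to all these
weights, for example on the `n` for which `n + h_1, …, n + h_k` are primes, for arbitrary `h_1, …, h_k`.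

From Mathlib: `ZMod.stdAddChar`: the additive character `j ↦ exp (2 π i j / q)` of the integers modulo `q`; `ZMod.val`: the
least residue; `Fintype.piFinset (fun _ : Fin r => s)`: the sequences of `r` members of `s`.

Main ingredients: `λ` with all additive characters in almost all intervals of length `x ^ (1 / 3) log ^ C x` (project MKM), the
one-shift law for short flat distributions.
-/

set_option autoImplicit false

namespace Pool.Agent.Results.MP_e6fa8b_nt.ShortFamilySystems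

open Finset

/-- The Fourier coefficients of the residues `y i`, `i ∈ s`, modulo `q` at the nonzero frequencies are at most
`η` times the number of the residues: `|∑ i ∈ s, e(h y_i / q)| ≤ η |s|` for all `h ≠ 0` modulo `q`. -/
def Flat {ι : Type} (q : ℕ) [NeZero q] (η : ℝ) (s : Finset ι) (y : ι → ZMod q) : Prop :=
  ∀ h : ZMod q, h ≠ 0 → ‖∑ i ∈ s, (ZMod.stdAddChar (h * y i) : ℂ)‖ ≤ η * s.card

/-- the Liouville function on the integers, zero at the integers `≤ 0` -/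
noncomputable def lam (m : ℤ) : ℝ := if 0 < m then ((ArithmeticFunction.liouville m.toNat : ℤ) : ℝ) else 0

/-- the product of the values of the von Mangoldt function at the forms `c_j n + d_j` -/
noncomputable def Lam {k : ℕ} (c d : Fin k → ℕ) (n : ℕ) : ℝ := ∏ j, ArithmeticFunction.vonMangoldt (c j * n + d j)

/-- **(1)** Let `k, B, A, T, Bq, U` be fixed. There are `V`, `C` such that for all large `N`, all `q` with
`N ^ (1 / 3) log ^ C N ≤ q ≤ Bq N`, all finite nonempty families of residues `y i`, `i ∈ s`, modulo `q` whose Fourier coefficients at the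
nonzero frequencies are at most `|s| / log ^ V q`, all `r` and every set of at most `log ^ A N` systems `t` (a positive integer `α`,
a weight `w` bounded by `log ^ T N`, `k` forms `c_j n + d_j` with coefficients in `[0, N ^ B]`, a nonempty set `I` of indices
`< r`, integers `a_l ≠ 0`, `|a_l| ≤ log ^ T N`, and `|b_l| ≤ N log ^ T N`): all sequences `i` of `r` members of `s`
with at most `|s| ^ r / log ^ A N` exceptions are such that for all systems and all `X` with `α X ≤ N log ^ T N` the sum of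
`w(n) ∏ Λ(c_j n + d_j) ∏_(l ∈ I) λ(α n + b_l + a_l y_(i_l))` over `n ≤ X` is at most `N / log ^ U N`.

**(2)** If `2 ^ r ≤ log ^ A N` then for all weights `w` as before (at most `log ^ A N`), all `X ≤ N`, all `κ ≤ log ^ T N` and
all patterns `ε` of `r` signs the sum of `w(n) ∏ Λ(c_j n + d_j)` over the `n ≤ X` with `λ(n + κ y_(i_l)) = ε_l` for all `l` is
`2 ^ (-r)` times the sum over all `n ≤ X`, up to an error of at most `N / log ^ U N`.

**(3)**, **(4)** Examples of flat families modulo large primes `p`: the quotients `j / r` of the integers `0 ≤ j < S` by the primes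
`r ≤ R`, if `log ^ (V + 4) p ≤ R < p` and `R ^ 2 ≤ S`; the cosets of all subgroups of the multiplicative group of an order of at
least `p ^ (3/8) log ^ (3 V + 1) p`; the residues `a b + g(a) + k(b)`, `a ∈ A`, `b ∈ B`, for arbitrary sets with
`|A| |B| ≥ p log ^ (2 V) p` and arbitrary functions `g` and `k`; the values `f(n)`, `0 ≤ n < x`, of all integer polynomials of degree
`d` whose leading coefficient is not divisible by `p`, if `x ^ d ≥ p log ^ C p`. -/
theorem result :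
    (∀ k B A T Bq U : ℕ, ∃ V C N₀ : ℕ, ∀ N : ℕ, N₀ ≤ N → ∀ (q : ℕ) [NeZero q],
      (N : ℝ) ^ (1 / 3 : ℝ) * Real.log N ^ C ≤ q → q ≤ Bq * N →
      ∀ {ι : Type} [DecidableEq ι] (s : Finset ι) (y : ι → ZMod q), s.Nonempty → Flat q (1 / Real.log q ^ V) s y →
      ∀ (r : ℕ) {τ : Type} (𝒯 : Finset τ), (𝒯.card : ℝ) ≤ Real.log N ^ A →
      ∀ (α : τ → ℕ) (w : τ → ℕ → ℝ) (c d : τ → Fin k → ℕ) (I : τ → Finset (Fin r)) (a b : τ → Fin r → ℤ),
      (∀ t ∈ 𝒯, 1 ≤ α t ∧ (∀ n, |w t n| ≤ Real.log N ^ T) ∧ (∀ j, c t j ≤ N ^ B ∧ d t j ≤ N ^ B) ∧ (I t).Nonempty ∧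
        (∀ l, a t l ≠ 0 ∧ ((a t l).natAbs : ℝ) ≤ Real.log N ^ T ∧ |(b t l : ℝ)| ≤ N * Real.log N ^ T)) →
      ∃ Bad ⊆ Fintype.piFinset (fun _ : Fin r => s), (Bad.card : ℝ) ≤ (s.card : ℝ) ^ r / Real.log N ^ A ∧
        ∀ i ∈ Fintype.piFinset (fun _ : Fin r => s), i ∉ Bad → ∀ t ∈ 𝒯, ∀ X : ℕ, ((α t * X : ℕ) : ℝ) ≤ N * Real.log N ^ T →
        |∑ n ∈ Icc 1 X, w t n * Lam (c t) (d t) n *
            ∏ l ∈ I t, lam ((α t * n : ℕ) + (b t l + a t l * ((y (i l)).val : ℕ)))| ≤ N / Real.log N ^ U) ∧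
    (∀ k B A T Bq U : ℕ, ∃ V C N₀ : ℕ, ∀ N : ℕ, N₀ ≤ N → ∀ (q : ℕ) [NeZero q],
      (N : ℝ) ^ (1 / 3 : ℝ) * Real.log N ^ C ≤ q → q ≤ Bq * N →
      ∀ {ι : Type} [DecidableEq ι] (s : Finset ι) (y : ι → ZMod q), s.Nonempty → Flat q (1 / Real.log q ^ V) s y →
      ∀ r : ℕ, (2 : ℝ) ^ r ≤ Real.log N ^ A → ∀ {τ : Type} (𝒯 : Finset τ), (𝒯.card : ℝ) ≤ Real.log N ^ A →
      ∀ (w : τ → ℕ → ℝ) (c d : τ → Fin k → ℕ), (∀ t ∈ 𝒯, (∀ n, |w t n| ≤ Real.log N ^ T) ∧ (∀ j, c t j ≤ N ^ B ∧ d t j ≤ N ^ B)) →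
      ∃ Bad ⊆ Fintype.piFinset (fun _ : Fin r => s), (Bad.card : ℝ) ≤ (s.card : ℝ) ^ r / Real.log N ^ A ∧
        ∀ i ∈ Fintype.piFinset (fun _ : Fin r => s), i ∉ Bad → ∀ t ∈ 𝒯, ∀ κ : ℕ, 1 ≤ κ → (κ : ℝ) ≤ Real.log N ^ T →
        ∀ X ≤ N, ∀ ε : Fin r → ℤ, (∀ l, ε l = 1 ∨ ε l = -1) →
        |∑ n ∈ (Icc 1 X).filter (fun n => ∀ l, ArithmeticFunction.liouville (n + κ * (y (i l)).val) = ε l),
            w t n * Lam (c t) (d t) n - 1 / 2 ^ r * ∑ n ∈ Icc 1 X, w t n * Lam (c t) (d t) n| ≤ N / Real.log N ^ U) ∧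
    (∀ V : ℕ, ∃ P₀ : ℕ, ∀ p : ℕ, P₀ ≤ p → ∀ [Fact p.Prime],
      (∀ R S : ℕ, Real.log p ^ (V + 4) ≤ R → R < p → R ^ 2 ≤ S →
        Flat p (1 / Real.log p ^ V) (((Icc 1 R).filter Nat.Prime) ×ˢ range S)
          (fun z => ((z.2 : ℕ) : ZMod p) * ((z.1 : ℕ) : ZMod p)⁻¹)) ∧
      (∀ (H : Subgroup (ZMod p)ˣ) (s : Finset (ZMod p)ˣ), (∀ u, u ∈ s ↔ u ∈ H) →
        (p : ℝ) ^ (3 / 8 : ℝ) * Real.log p ^ (3 * V + 1) ≤ s.card → ∀ x : ZMod p, x ≠ 0 →
        Flat p (1 / Real.log p ^ V) s (fun u => x * (u : ZMod p))) ∧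
      (∀ (A B : Finset (ZMod p)) (g k : ZMod p → ZMod p), (p : ℝ) * Real.log p ^ (2 * V) ≤ A.card * B.card →
        Flat p (1 / Real.log p ^ V) (A ×ˢ B) (fun z => z.1 * z.2 + g z.1 + k z.2))) ∧
    (∀ d V : ℕ, 1 ≤ d → ∃ C P₀ : ℕ, ∀ p : ℕ, P₀ ≤ p → ∀ [Fact p.Prime] (f : Polynomial ℤ), f.natDegree = d →
      ¬ (p : ℤ) ∣ f.leadingCoeff → ∀ x : ℕ, (p : ℝ) * Real.log p ^ C ≤ (x : ℝ) ^ d →
      Flat p (1 / Real.log p ^ V) (range x) (fun n => ((f.eval (n : ℤ) : ℤ) : ZMod p))) := by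
  refine ⟨fun k B A T Bq U => ?_, fun k B A T Bq U => ?_, fun V => ?_, fun d V hd => ?_⟩
  · obtain ⟨V, C, N₀, h⟩ := Pool.Agent.Run7.h794.MK.lio_sys k B A T Bq U
    obtain ⟨N₁, h1⟩ := Pool.Agent.Run7.h794.MK.flat_log V
    exact ⟨V + 1, C, N₀ + N₁, fun N hN q _ hq1 hq2 ι _ s y hs hf =>
      h N (by omega) q hq1 hq2 s y hs (h1 N (by omega) q C hq1 s y hf)⟩
  · obtain ⟨V, C, N₀, h⟩ := Pool.Agent.Run7.h794.MK.lio_pat k B A T Bq U
    obtain ⟨N₁, h1⟩ := Pool.Agent.Run7.h794.MK.flat_log V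
    exact ⟨V + 1, C, N₀ + N₁, fun N hN q _ hq1 hq2 ι _ s y hs hf =>
      h N (by omega) q hq1 hq2 s y hs (h1 N (by omega) q C hq1 s y hf)⟩
  · obtain ⟨P₁, h1⟩ := Pool.Agent.N384.MQ.flat_quot V
    obtain ⟨P₂, h2⟩ := Pool.Agent.N384.MQ.flat_coset V
    obtain ⟨P₃, h3⟩ := Pool.Agent.N384.MQ.flat_prod V
    exact ⟨P₁ + P₂ + P₃, fun p hp _ => ⟨fun R S => h1 p (by omega) R S, fun H s => h2 p (by omega) H s,
      fun A B g k => h3 p (by omega) A B g k⟩⟩
  · exact Pool.Agent.N384.MQ.flat_poly d V hd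

end Pool.Agent.Results.MP_e6fa8b_nt.ShortFamilySystems
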